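import Pool.Agent.H11.KS.Defs
import Pool.Agent.H63.KO.Tree

/-!
# KS.Base : `|J| + 1 ≤ |V|`, products, quotients (paper 1.1, 1.2, 1.3)
-/

set_option autoImplicit false

namespace Pool.Agent.H11.KS

variable {V : Type} {s : ℕ → V → V}

/-- 1.1 -/
theorem mi_card [Finite V] [Nonempty V] (h : Act s) {J : Finset ℕ} (hJ : Mi s J) (h1 : ∀ j ∈ J, 1 ≤ j) :
    J.card + 1 ≤ Nat.card V := by
  classical
  let t : ℕ → V → V := fun i => if i ∈ J then s i else id
  have ht : ∀ i ∈ J, t i = s i := fun i hi => if_pos hi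
  have ht' : ∀ i ∉ J, t i = id := fun i hi => if_neg hi
  have hinv : ∀ i v, t i (t i v) = v := by
    intro i v
    by_cases hi : i ∈ J
    · rw [ht i hi, h.inv]
    · rw [ht' i hi]; rfl
  have hconn : ∀ v w, Relation.ReflTransGen (fun p q => ∃ i, 1 ≤ i ∧ i ≤ J.sup id ∧ q = t i p) v w := by
    intro v w
    have h2 := hJ.tr v w
    unfold Re at h2
    induction h2 with
    | refl => exact Relation.ReflTransGen.refl
    | tail _ h3 ih =>
      obtain ⟨i, hi, rfl⟩ := h3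
      exact ih.tail ⟨i, h1 i hi, Finset.le_sup (f := id) hi, by rw [ht i hi]⟩
  obtain ⟨J', hc, -, hJ'⟩ := H63.KO.tree (J.sup id) t hinv hconn
  have h3 : Tr s (J' ∩ J) := by
    intro v w
    have h4 := hJ' v w
    induction h4 with
    | refl => exact Re.refl _
    | tail _ h5 ih =>
      obtain ⟨i, hi, rfl⟩ := h5
      by_cases hij : i ∈ J
      · rw [ht i hij]
        exact ih.trans (Re.step (Finset.mem_inter.2 ⟨hi, hij⟩) _)
      · rw [ht' i hij]
        exact ih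
  have h4 : J ⊆ J' := by
    intro j hj
    by_contra hj'
    refine hJ.min j hj (fun v w => (h3 v w).mono ?_)
    intro i hi
    rw [Finset.mem_inter] at hi
    exact Finset.mem_erase.2 ⟨fun e => hj' (e ▸ hi.1), hi.2⟩
  have := Finset.card_le_card h4
  omega

/-- 1.2 -/
theorem card_prod [Finite V] (h : Act s) {J1 J2 : Finset ℕ} (hfar : ∀ i ∈ J1, ∀ j ∈ J2, i + 2 ≤ j ∨ j + 2 ≤ i)
    (ht : Tr s (J1 ∪ J2)) :
    Nat.card (Quotient (cp s h J1)) * Nat.card (Quotient (cp s h J2)) ≤ Nat.card V := by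
  rw [← Nat.card_prod]
  refine Nat.card_le_card_of_surjective
    (fun v : V => (Quotient.mk (cp s h J1) v, Quotient.mk (cp s h J2) v)) ?_
  rintro ⟨x, y⟩
  induction x using Quotient.inductionOn with
  | h v =>
  induction y using Quotient.inductionOn with
  | h w =>
  have hfar' : ∀ i ∈ J2, ∀ j ∈ J1, i + 2 ≤ j ∨ j + 2 ≤ i := fun i hi j hj => (hfar j hj i hi).symm
  have h1 : Re (sq (cp s h J2) s) J1 (Quotient.mk (cp s h J2) v) (Quotient.mk (cp s h J2) w) :=
    re_desc h hfar (ht v w)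
  obtain ⟨u, hu1, hu2⟩ := re_lift h hfar h1 v rfl
  refine ⟨u, Prod.ext ?_ hu2⟩
  exact ((cp_iff h _ _).2 hu1).symm

/-- 1.3 -/
theorem mi_quot (h : Act s) {J1 J2 : Finset ℕ} (hfar : ∀ i ∈ J1, ∀ j ∈ J2, i + 2 ≤ j ∨ j + 2 ≤ i)
    (hd : Disjoint J1 J2) (hJ : Mi s (J1 ∪ J2)) : Mi (sq (cp s h J1) s) J2 := by
  have hfar' : ∀ i ∈ J2, ∀ j ∈ J1, i + 2 ≤ j ∨ j + 2 ≤ i := fun i hi j hj => (hfar j hj i hi).symm
  constructor
  · intro x y
    induction x using Quotient.inductionOn with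
    | h v =>
    induction y using Quotient.inductionOn with
    | h w =>
    exact re_desc h hfar' (by rw [Finset.union_comm]; exact hJ.tr v w)
  · intro j hj hT
    have hj1 : j ∉ J1 := fun h2 => (Finset.disjoint_left.1 hd h2) hj
    refine hJ.min j (Finset.mem_union_right _ hj) fun v w => ?_
    have hfar2 : ∀ i ∈ J2.erase j, ∀ j ∈ J1, i + 2 ≤ j ∨ j + 2 ≤ i :=
      fun i hi => hfar' i (Finset.mem_of_mem_erase hi)
    obtain ⟨u, hu1, hu2⟩ := re_lift h hfar2 (hT (Quotient.mk _ v) (Quotient.mk _ w)) v rfl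
    have h3 := (cp_iff h _ _).1 hu2
    refine (hu1.mono ?_).trans (h3.mono ?_)
    · intro i hi
      rw [Finset.mem_erase] at hi ⊢
      exact ⟨hi.1, Finset.mem_union_right _ hi.2⟩
    · intro i hi
      rw [Finset.mem_erase]
      exact ⟨fun e => hj1 (e ▸ hi), Finset.mem_union_left _ hi⟩

end Pool.Agent.H11.KS
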