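import Mathlib

/-!
# KS.Num : the numerical inequality of paper 4, free blocks of length 9
-/

set_option autoImplicit false

namespace Pool.Agent.H11.KS

private theorem log_aux (n : ℕ) (hn : 7 ≤ n) : 16 * (n + 1) ≤ 2 ^ (n + 1) := by
  induction n, hn using Nat.le_induction with
  | base => norm_num
  | succ n hn ih =>
    rw [pow_succ]
    omega

theorem num {c d m : ℕ} (hc : 120 ≤ c) (hd : c + 29 ≤ d) (hm : 120 * (m + 1) ≤ c + 120 * 4) :
    9 * (m + (Nat.log 2 c + 1)) ≤ d := by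
  have h1 : Nat.log 2 c ≤ c / 16 := by
    have h2 : 7 ≤ c / 16 := by omega
    have h3 := log_aux (c / 16) h2
    have h4 : c < 2 ^ (c / 16 + 1) := by omega
    have h5 : Nat.log 2 c < c / 16 + 1 := Nat.log_lt_of_lt_pow (by omega) h4
    omega
  omega

/-- the intervals `[9 n + 1, 9 n + 9]` -/
theorem free_blocks9 (J : Finset ℕ) (m : ℕ) :
    ∃ Q : Finset ℕ, (∀ n ∈ Q, n < J.card + m) ∧ m ≤ Q.card ∧
      ∀ n ∈ Q, ∀ j ∈ J, ¬ (9 * n + 1 ≤ j ∧ j ≤ 9 * n + 9) := by
  classical
  refine ⟨Finset.range (J.card + m) \ J.image (fun j => (j - 1) / 9), ?_, ?_, ?_⟩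
  · intro n hn
    have := (Finset.mem_sdiff.1 hn).1
    exact Finset.mem_range.1 this
  · have h1 := Finset.le_card_sdiff (J.image (fun j => (j - 1) / 9)) (Finset.range (J.card + m))
    have h2 : (J.image (fun j => (j - 1) / 9)).card ≤ J.card := Finset.card_image_le
    rw [Finset.card_range] at h1
    omega
  · intro n hn j hj hjn
    apply (Finset.mem_sdiff.1 hn).2
    rw [Finset.mem_image]
    refine ⟨j, hj, ?_⟩
    show (j - 1) / 9 = n
    omega

end Pool.Agent.H11.KS
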