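import Pool.Agent.H11.KS.Win
import Pool.Agent.H11.KS.Num

/-!
# KS.Blk : existence of a block for `|V| + 29 ≤ d` (paper 4)
-/

set_option autoImplicit false

namespace Pool.Agent.H11.KS

open H63.KO

variable {X : Type} [Finite X] {S : FSys X} {V : Type}

theorem exists_block_sharp [Finite V] [Nonempty V] (q : S.Quo V) (hd : Nat.card V + 29 ≤ S.d) :
    ∃ a b, IsBlock q a b := by
  classical
  by_contra hno
  have hno' : ∀ a b, ¬ IsBlock q a b := fun a b hB => hno ⟨a, b, hB⟩
  have h : Act q.s := act_quo q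
  have htr : Tr q.s (Finset.Icc 1 S.d) := by
    intro v w
    obtain ⟨x, rfl⟩ := q.surj v
    obtain ⟨y, rfl⟩ := q.surj w
    have h0 := S.conn x y
    induction h0 with
    | refl => exact Re.refl _
    | tail _ h2 ih =>
      obtain ⟨i, h3, h4, rfl⟩ := h2
      rw [q.hs]
      exact ih.trans (Re.step (Finset.mem_Icc.2 ⟨h3, h4⟩) _)
  -- a transitive set of smallest cardinality
  obtain ⟨J, hJmem, hJmin⟩ := Finset.exists_min_image
    ((Finset.Icc 1 S.d).powerset.filter fun J => Tr q.s J) Finset.card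
    ⟨Finset.Icc 1 S.d, Finset.mem_filter.2 ⟨Finset.mem_powerset_self _, htr⟩⟩
  rw [Finset.mem_filter, Finset.mem_powerset] at hJmem
  obtain ⟨hJsub, hJ⟩ := hJmem
  have hJmin' : ∀ J' ⊆ Finset.Icc 1 S.d, Tr q.s J' → J.card ≤ J'.card := by
    intro J' h1 h2
    exact hJmin J' (Finset.mem_filter.2 ⟨Finset.mem_powerset.2 h1, h2⟩)
  have hM : Mi q.s J := by
    refine ⟨hJ, fun j hj hT => ?_⟩
    have h1 := hJmin' (J.erase j) ((Finset.erase_subset _ _).trans hJsub) hT
    have h2 := Finset.card_erase_lt_of_mem hj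
    omega
  -- the window
  obtain ⟨A, hA1, hA, hw⟩ := window h (fun j hj => Finset.mem_Icc.1 (hJsub hj)) hM hd
  have hW : Wn q J A := ⟨hJ, hA1, hA, hw⟩
  have h3 := win_three q hW
  have hnc : ∀ i, A + 2 ≤ i → i ≤ A + 5 → ¬ ∀ w, q.s i (q.s (i + 1) w) = q.s (i + 1) (q.s i w) :=
    fun i h1 h2 hc => hno' _ _ (win_block q hW h1 h2 hc)
  -- the group
  have hbr : Braid (fun i => pm q.s h (A + 2 + i)) 4 := by
    refine ⟨?_, ?_, ?_, ?_⟩
    · intro i _
      ext v
      show q.s (A + 2 + i) (q.s (A + 2 + i) v) = v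
      exact q.s_inv _ v
    · intro i hi
      have hcube : ∀ v, q.s (A + 2 + i) (q.s (A + 2 + i + 1) (q.s (A + 2 + i) (q.s (A + 2 + i + 1)
          (q.s (A + 2 + i) (q.s (A + 2 + i + 1) v))))) = v := by
        intro v
        obtain ⟨x, rfl⟩ := q.surj v
        have h1 := S.per_iter (A + 2 + i) x
        rw [h3 (A + 2 + i) (by omega) (by omega) x] at h1
        have h2 := congrArg q.π h1
        have h4 : q.π (S.ρ (A + 2 + i) (S.ρ (A + 2 + i + 1) (S.ρ (A + 2 + i) (S.ρ (A + 2 + i + 1)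
          (S.ρ (A + 2 + i) (S.ρ (A + 2 + i + 1) x)))))) = q.π x := h2
        simp only [q.hs] at h4
        exact h4
      ext v
      show q.s (A + 2 + i) (q.s (A + 2 + i + 1) (q.s (A + 2 + i) v)) =
        q.s (A + 2 + i + 1) (q.s (A + 2 + i) (q.s (A + 2 + i + 1) v))
      have h5 := hcube (q.s (A + 2 + i + 1) (q.s (A + 2 + i) (q.s (A + 2 + i + 1) v)))
      rw [q.s_inv (A + 2 + i + 1), q.s_inv (A + 2 + i), q.s_inv (A + 2 + i + 1)] at h5
      exact h5
    · intro i j hij _
      ext v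
      exact q.s_comm (Or.inl (by omega)) v
    · intro i hi he
      refine hnc (A + 2 + i) (by omega) (by omega) fun w => ?_
      exact congrArg (fun p : Equiv.Perm V => p w) he
  have hch := card_Kn hbr 3 (by norm_num)
  have hfac : (3 + 2).factorial = 120 := rfl
  rw [hfac] at hch
  have himg : (fun i => pm q.s h (A + 2 + i)) '' {i | i ≤ 3} = pm q.s h '' ((Finset.Icc (A + 2) (A + 5) : Finset ℕ) : Set ℕ) := by
    ext g
    constructor
    · rintro ⟨i, hi, rfl⟩
      refine ⟨A + 2 + i, ?_, rfl⟩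
      rw [Finset.coe_Icc, Set.mem_Icc]
      simp only [Set.mem_ofPred_eq] at hi
      omega
    · rintro ⟨i, hi, rfl⟩
      rw [Finset.coe_Icc, Set.mem_Icc] at hi
      refine ⟨i - (A + 2), ?_, ?_⟩
      · simp only [Set.mem_ofPred_eq]
        omega
      · show pm q.s h (A + 2 + (i - (A + 2))) = pm q.s h i
        congr 1
        omega
  unfold Kn at hch
  rw [himg] at hch
  have hfar : ∀ i ∈ J, ∀ j ∈ Finset.Icc (A + 2) (A + 5), i + 2 ≤ j ∨ j + 2 ≤ i := by
    intro i hi j hj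
    rw [Finset.mem_Icc] at hj
    have := hw i hi
    omega
  have hs := semi h hfar hJ
  have hj := jbound h (K := Finset.Icc (A + 2) (A + 5)) hJsub
    (by
      intro i hi
      rw [Finset.mem_Icc] at hi ⊢
      omega)
    hfar hJ hJmin'
  rw [Nat.card_Icc] at hj
  have hne : Nonempty (Quotient (cp q.s h (Finset.Icc (A + 2) (A + 5)))) := ⟨Quotient.mk _ (Classical.arbitrary V)⟩
  have hq1 : 0 < Nat.card (Quotient (cp q.s h (Finset.Icc (A + 2) (A + 5)))) := Nat.card_pos
  have hq : Nat.card (Quotient (cp q.s h (Finset.Icc (A + 2) (A + 5)))) * 120 ≤ Nat.card V :=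
    (Nat.mul_le_mul_left _ hch).trans hs
  have hnum := num (c := Nat.card V) (d := S.d) (m := J.card) (by omega) hd (by omega)
  -- many free windows
  obtain ⟨Q, hQ1, hQ2, hQ3⟩ := free_blocks9 J (Nat.log 2 (Nat.card V) + 1)
  have hTT : ∀ v w, Relation.ReflTransGen
      (fun p p' => ∃ t ∈ {t : Equiv.Perm V | ∃ j ∈ J, t = pm q.s h j}, p' = t p) v w := by
    intro v w
    have h0 := hJ v w
    unfold Re at h0
    induction h0 with
    | refl => exact Relation.ReflTransGen.refl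
    | tail _ h2 ih =>
      obtain ⟨i, h3, rfl⟩ := h2
      exact ih.tail ⟨pm q.s h i, ⟨i, h3, rfl⟩, rfl⟩
  have hpc : ∀ i j, (i + 2 ≤ j ∨ j + 2 ≤ i) → pm q.s h i * pm q.s h j = pm q.s h j * pm q.s h i := by
    intro i j hij
    ext v
    exact q.s_comm hij v
  obtain ⟨n, hn, hg⟩ := double {t : Equiv.Perm V | ∃ j ∈ J, t = pm q.s h j} hTT Q
    (fun n => pm q.s h (9 * n + 4))
    (by
      rintro n hn t ⟨j, hj, rfl⟩
      have h0 := hQ3 n hn j hj
      exact hpc _ _ (by omega))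
    (by
      calc Nat.card V < 2 ^ (Nat.log 2 (Nat.card V) + 1) := Nat.lt_pow_succ_log_self (by norm_num) _
        _ ≤ 2 ^ Q.card := Nat.pow_le_pow_right (by norm_num) hQ2)
  have hnd : 9 * n + 9 ≤ S.d := by
    have h1 := hQ1 n hn
    omega
  have hcent : pm q.s h (9 * n + 4) ∈
      Subgroup.centralizer ({pm q.s h (9 * n + 3)} : Set (Equiv.Perm V)) := by
    refine (Subgroup.closure_le _).2 ?_ hg
    rintro _ ⟨j, ⟨hj1, hj2⟩, rfl⟩
    rw [SetLike.mem_coe, Subgroup.mem_centralizer_singleton_iff]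
    exact hpc _ _ (by omega)
  rw [Subgroup.mem_centralizer_singleton_iff] at hcent
  have hW' : Wn q J (9 * n + 1) := ⟨hJ, by omega, by omega, fun j hj hjA => hQ3 n hn j hj (by omega)⟩
  refine hno' _ _ (win_block q hW' (i := 9 * n + 3) (by omega) (by omega) ?_)
  intro w
  have h9 := congrArg (fun p : Equiv.Perm V => p w) hcent
  exact h9.symm

end Pool.Agent.H11.KS
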