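import Mathlib

/-!
# KS.Chain : a lower bound for the order of a group (paper 3.1, 3.2)

`p 0, ..., p m` involutions with the braid relations of the symmetric group, neighbours do not commute. `K n = <p 0, .., p n>`. If `n + 2 ≤ m` then
the `n + 3` left cosets of `K n` of `p i ... p (n+1)` (`i ≤ n + 1`) and of `1` are different, so `|K (n+1)| ≥ (n+3) |K n|`.
-/

set_option autoImplicit false

namespace Pool.Agent.H11.KS

variable {G : Type} [Group G]

/-- the relations -/
structure Braid (p : ℕ → G) (m : ℕ) : Prop where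
  sq : ∀ i, i ≤ m → p i * p i = 1
  br : ∀ i, i < m → p i * p (i + 1) * p i = p (i + 1) * p i * p (i + 1)
  cm : ∀ i j, i + 2 ≤ j → j ≤ m → p i * p j = p j * p i
  nc : ∀ i, i < m → p i * p (i + 1) ≠ p (i + 1) * p i

/-- `A p i s = p i * p (i+1) * ... * p (i+s-1)` -/
def A (p : ℕ → G) (i : ℕ) : ℕ → G
  | 0 => 1
  | s + 1 => A p i s * p (i + s)

/-- the group of `p 0, ..., p n` -/
def Kn (p : ℕ → G) (n : ℕ) : Subgroup G := Subgroup.closure (p '' {i | i ≤ n})

theorem mem_Kn (p : ℕ → G) {i n : ℕ} (h : i ≤ n) : p i ∈ Kn p n :=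
  Subgroup.subset_closure ⟨i, by simpa using h, rfl⟩

theorem Kn_mono (p : ℕ → G) {m n : ℕ} (h : m ≤ n) : Kn p m ≤ Kn p n := by
  apply Subgroup.closure_mono
  apply Set.image_mono
  intro i hi
  simp only [Set.mem_ofPred_eq] at hi ⊢
  omega

theorem Kn_comm {p : ℕ → G} {m : ℕ} (h : Braid p m) {n j : ℕ} (hj : n + 2 ≤ j) (hm : j ≤ m) {x : G} (hx : x ∈ Kn p n) :
    x * p j = p j * x := by
  have h4 : Kn p n ≤ Subgroup.centralizer {p j} := by
    unfold Kn
    rw [Subgroup.closure_le]
    rintro _ ⟨i, hi, rfl⟩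
    rw [SetLike.mem_coe, Subgroup.mem_centralizer_singleton_iff]
    exact h.cm i j (by simp only [Set.mem_ofPred_eq] at hi; omega) hm
  have h5 := h4 hx
  rwa [Subgroup.mem_centralizer_singleton_iff] at h5

/-- `q` commutes with `w` and with `p w p`, `pqp = qpq`: then `p` commutes with `w` -/
theorem comm_trick {p q w : G} (hp : p * p = 1) (hq : q * q = 1) (hb : p * q * p = q * p * q) (hw : w * q = q * w)
    (hx : (p * w * p) * q = q * (p * w * p)) : w * p = p * w := by
  -- `pqp` commutes with `w`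
  have h1 : w * (p * q * p) = (p * q * p) * w := by
    calc w * (p * q * p) = p * (p * w * p) * q * p := by
          have : p * (p * w * p) * q * p = (p * p) * w * p * q * p := by group
          rw [this, hp, one_mul]
          group
      _ = p * ((p * w * p) * q) * p := by group
      _ = p * (q * (p * w * p)) * p := by rw [hx]
      _ = p * q * p * w * (p * p) := by group
      _ = (p * q * p) * w := by rw [hp, mul_one]
  -- so does `p = q (qpq) q`
  have h2 : p = q * (p * q * p) * q := by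
    rw [hb]
    calc p = 1 * p * 1 := by group
      _ = (q * q) * p * (q * q) := by rw [hq]
      _ = q * (q * p * q) * q := by group
  calc w * p = w * (q * (p * q * p) * q) := by rw [← h2]
    _ = (w * q) * (p * q * p) * q := by group
    _ = (q * w) * (p * q * p) * q := by rw [hw]
    _ = q * (w * (p * q * p)) * q := by group
    _ = q * ((p * q * p) * w) * q := by rw [h1]
    _ = q * (p * q * p) * (w * q) := by group
    _ = q * (p * q * p) * (q * w) := by rw [hw]
    _ = (q * (p * q * p) * q) * w := by group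
    _ = p * w := by rw [← h2]

theorem A_mem (p : ℕ → G) {i n : ℕ} : ∀ s, i + s ≤ n + 1 → A p i s ∈ Kn p n := by
  intro s
  induction s with
  | zero => intro _; exact Subgroup.one_mem _
  | succ s ih =>
    intro h
    exact Subgroup.mul_mem _ (ih (by omega)) (mem_Kn p (by omega))

theorem A_comm {p : ℕ → G} {m : ℕ} (h : Braid p m) {i j : ℕ} (hm : j ≤ m) : ∀ s, i + s + 1 ≤ j →
    A p i s * p j = p j * A p i s := by
  intro s hs
  rcases s with _ | s
  · show 1 * p j = p j * 1
    rw [one_mul, mul_one]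
  · exact Kn_comm h (n := i + s) (by omega) hm (A_mem p _ (by omega))

/-- the quotients of the coset representatives do not commute with the next generator -/
theorem rep_ne {p : ℕ → G} {m : ℕ} (h : Braid p m) {i u : ℕ} : ∀ s, i + u + 1 + s ≤ m →
    ((A p i (u + 1 + s))⁻¹ * A p (i + u + 1) s) * p (i + u + 1 + s) ≠
      p (i + u + 1 + s) * ((A p i (u + 1 + s))⁻¹ * A p (i + u + 1) s) := by
  intro s
  induction s with
  | zero =>
    intro hm he
    have e1 : A p i (u + 1 + 0) = A p i u * p (i + u) := rfl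
    have e2 : A p (i + u + 1) 0 = 1 := rfl
    rw [e1, e2, mul_one, mul_inv_rev, Nat.add_zero] at he
    have hA := A_comm h (i := i) (j := i + u + 1) (by omega) u (by omega)
    have hsq := h.sq (i + u) (by omega)
    have hinv : (p (i + u))⁻¹ = p (i + u) := inv_eq_of_mul_eq_one_left hsq
    rw [hinv] at he
    apply h.nc (i + u) (by omega)
    have hA' : (A p i u)⁻¹ * p (i + u + 1) = p (i + u + 1) * (A p i u)⁻¹ := by
      rw [inv_mul_eq_iff_eq_mul, ← mul_assoc, hA, mul_assoc, mul_inv_cancel, mul_one]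
    rw [mul_assoc, hA', ← mul_assoc, ← mul_assoc] at he
    exact mul_right_cancel he
  | succ s ih =>
    intro hm he
    apply ih (by omega)
    have hsq := h.sq (i + u + 1 + s) (by omega)
    have hinv : (p (i + u + 1 + s))⁻¹ = p (i + u + 1 + s) := inv_eq_of_mul_eq_one_left hsq
    have e1 : A p i (u + 1 + (s + 1)) = A p i (u + 1 + s) * p (i + (u + 1 + s)) := rfl
    have e2 : A p (i + u + 1) (s + 1) = A p (i + u + 1) s * p (i + u + 1 + s) := rfl
    have e3 : i + (u + 1 + s) = i + u + 1 + s := by omega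
    have e4 : i + u + 1 + (s + 1) = i + u + 1 + s + 1 := by omega
    rw [e1, e2, e3, e4, mul_inv_rev, hinv] at he
    have hw : ((A p i (u + 1 + s))⁻¹ * A p (i + u + 1) s) * p (i + u + 1 + s + 1) =
        p (i + u + 1 + s + 1) * ((A p i (u + 1 + s))⁻¹ * A p (i + u + 1) s) := by
      refine Kn_comm h (n := i + u + s) (by omega) (by omega) (Subgroup.mul_mem _ (Subgroup.inv_mem _ ?_) ?_)
      · exact A_mem p _ (by omega)
      · exact A_mem p _ (by omega)
    refine comm_trick hsq (h.sq (i + u + 1 + s + 1) (by omega)) (h.br (i + u + 1 + s) (by omega)) hw ?_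
    have e5 : p (i + u + 1 + s) * (A p i (u + 1 + s))⁻¹ * (A p (i + u + 1) s * p (i + u + 1 + s)) =
        p (i + u + 1 + s) * ((A p i (u + 1 + s))⁻¹ * A p (i + u + 1) s) * p (i + u + 1 + s) := by group
    rw [e5] at he
    exact he

theorem Kn_step [Finite G] {p : ℕ → G} {m n : ℕ} (h : Braid p m) (hn : n + 2 ≤ m) :
    (n + 3) * Nat.card (Kn p n) ≤ Nat.card (Kn p (n + 1)) := by
  have hlt : ∀ i j : ℕ, i < j → j ≤ n + 2 → (A p i (n + 2 - i))⁻¹ * A p j (n + 2 - j) ∉ Kn p n := by
    intro i j hij hj hmem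
    obtain ⟨u, rfl⟩ : ∃ u, j = i + u + 1 := ⟨j - i - 1, by omega⟩
    have h1 := rep_ne h (i := i) (u := u) (n + 2 - (i + u + 1)) (by omega)
    have e1 : u + 1 + (n + 2 - (i + u + 1)) = n + 2 - i := by omega
    have e2 : i + u + 1 + (n + 2 - (i + u + 1)) = n + 2 := by omega
    rw [e1, e2] at h1
    exact h1 (Kn_comm h le_rfl hn hmem)
  have hne : ∀ i j : Fin (n + 3), i ≠ j → (A p i (n + 2 - i))⁻¹ * A p j (n + 2 - j) ∉ Kn p n := by
    intro i j hij
    rcases lt_or_gt_of_ne (fun e => hij (Fin.ext e) : (i : ℕ) ≠ j) with h1 | h1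
    · exact hlt i j h1 (by omega)
    · intro hmem
      apply hlt j i h1 (by omega)
      have := Subgroup.inv_mem _ hmem
      rwa [mul_inv_rev, inv_inv] at this
  have h3 : Nat.card (Fin (n + 3) × Kn p n) ≤ Nat.card (Kn p (n + 1)) := by
    refine Nat.card_le_card_of_injective
      (fun x : Fin (n + 3) × Kn p n => (⟨A p x.1 (n + 2 - x.1) * x.2.1,
        Subgroup.mul_mem _ (A_mem p _ (by have := x.1.2; omega)) (Kn_mono p (Nat.le_succ n) x.2.2)⟩ : Kn p (n + 1))) ?_
    rintro ⟨i, x⟩ ⟨j, y⟩ he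
    have h1 : A p i (n + 2 - i) * x.1 = A p j (n + 2 - j) * y.1 := congrArg Subtype.val he
    have hij : i = j := by
      by_contra hij
      apply hne j i (Ne.symm hij)
      have h2 : (A p j (n + 2 - j))⁻¹ * A p i (n + 2 - i) = y.1 * x.1⁻¹ := by
        rw [inv_mul_eq_iff_eq_mul, ← mul_assoc, ← h1, mul_assoc, mul_inv_cancel, mul_one]
      rw [h2]
      exact Subgroup.mul_mem _ y.2 (Subgroup.inv_mem _ x.2)
    subst hij
    exact Prod.ext rfl (Subtype.ext (mul_left_cancel h1))
  rwa [Nat.card_prod, Nat.card_eq_fintype_card, Fintype.card_fin] at h3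

theorem card_Kn [Finite G] {p : ℕ → G} {m : ℕ} (h : Braid p m) : ∀ n, n + 1 ≤ m → (n + 2).factorial ≤ Nat.card (Kn p n) := by
  intro n
  induction n with
  | zero =>
    intro hm
    have h1 : p 0 ≠ 1 := by
      intro h1
      apply h.nc 0 (by omega)
      rw [h1, one_mul, mul_one]
    have h3 : Nontrivial (Kn p 0) := ⟨⟨⟨p 0, mem_Kn p le_rfl⟩, 1, fun h => h1 (congrArg Subtype.val h)⟩⟩
    have := Finite.one_lt_card_iff_nontrivial.2 h3
    exact this
  | succ n ih =>
    intro hm
    have h1 := ih (by omega)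
    have h2 := Kn_step h (n := n) (by omega)
    have h3 : (n + 1 + 2).factorial = (n + 3) * (n + 2).factorial := Nat.factorial_succ _
    rw [h3]
    exact (Nat.mul_le_mul_left _ h1).trans h2

end Pool.Agent.H11.KS
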