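import Mathlib

/-!
# KS.Defs : transitive sets of colours (MP_166b83_co, convex d-polytopes with at most d - 29 flag orbits are regular)

`s i`, `i : ℕ`, are involutions (or identities) of a finite set `V`, and `s i`, `s j` commute for `|i - j| ≥ 2` (`Act`). `Re s J v w`: `w` can be
reached from `v` by the colours of `J`. `Tr s J`: `J` is transitive; `Mi s J`: minimal transitive. `cp s h J`: the components of `J` as a setoid;
`sq r s i`: the map induced by `s i` on a quotient (the identity if there is none). This file is complete.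
-/

set_option autoImplicit false

namespace Pool.Agent.H11.KS

/-- involutions (or identities), far colours commute -/
structure Act {V : Type} (s : ℕ → V → V) : Prop where
  inv : ∀ i v, s i (s i v) = v
  comm : ∀ i j, i + 2 ≤ j → ∀ v, s i (s j v) = s j (s i v)

/-- reachable by the colours of `J` -/
def Re {V : Type} (s : ℕ → V → V) (J : Finset ℕ) (v w : V) : Prop :=
  Relation.ReflTransGen (fun p q => ∃ i ∈ J, q = s i p) v w

/-- `J` is transitive -/
def Tr {V : Type} (s : ℕ → V → V) (J : Finset ℕ) : Prop := ∀ v w, Re s J v w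

/-- `J` is minimal transitive -/
structure Mi {V : Type} (s : ℕ → V → V) (J : Finset ℕ) : Prop where
  tr : Tr s J
  min : ∀ j ∈ J, ¬ Tr s (J.erase j)

variable {V : Type} {s : ℕ → V → V} {J : Finset ℕ}

theorem Re.refl (v : V) : Re s J v v := Relation.ReflTransGen.refl

theorem Re.trans {u v w : V} (h1 : Re s J u v) (h2 : Re s J v w) : Re s J u w :=
  Relation.ReflTransGen.trans h1 h2

theorem Re.step {i : ℕ} (hi : i ∈ J) (v : V) : Re s J v (s i v) :=
  Relation.ReflTransGen.single ⟨i, hi, rfl⟩

theorem Re.symm (h : Act s) {v w : V} (h1 : Re s J v w) : Re s J w v := by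
  induction h1 with
  | refl => exact Re.refl _
  | tail _ h2 ih =>
    obtain ⟨i, hi, rfl⟩ := h2
    refine Re.trans ?_ ih
    have h3 := Re.step (s := s) hi (s i ‹V›)
    rwa [h.inv] at h3

theorem Re.mono {J' : Finset ℕ} (hJ : J ⊆ J') {v w : V} (h1 : Re s J v w) : Re s J' v w := by
  induction h1 with
  | refl => exact Re.refl _
  | tail _ h2 ih =>
    obtain ⟨i, hi, rfl⟩ := h2
    exact ih.trans (Re.step (hJ hi) _)

theorem Act.comm' (h : Act s) {i j : ℕ} (hij : i + 2 ≤ j ∨ j + 2 ≤ i) (v : V) : s i (s j v) = s j (s i v) := by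
  rcases hij with hij | hij
  · exact h.comm i j hij v
  · exact (h.comm j i hij v).symm

/-- a far colour maps components to components -/
theorem re_comm (h : Act s) {i : ℕ} (hi : ∀ j ∈ J, i + 2 ≤ j ∨ j + 2 ≤ i) {v w : V} (h1 : Re s J v w) :
    Re s J (s i v) (s i w) := by
  induction h1 with
  | refl => exact Re.refl _
  | tail _ h2 ih =>
    obtain ⟨j, hj, rfl⟩ := h2
    rw [h.comm' (hi j hj)]
    exact ih.trans (Re.step hj _)

/-- the components of `J` -/
def cp (s : ℕ → V → V) (h : Act s) (J : Finset ℕ) : Setoid V where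
  r := Re s J
  iseqv := ⟨fun v => Re.refl v, fun h1 => h1.symm h, fun h1 h2 => h1.trans h2⟩

/-- the induced maps on a quotient -/
noncomputable def sq (r : Setoid V) (s : ℕ → V → V) (i : ℕ) : Quotient r → Quotient r := by
  classical
  exact if h : ∀ v w, r v w → r (s i v) (s i w) then Quotient.map (s i) (fun v w => h v w) else id

theorem sq_of (r : Setoid V) {i : ℕ} (h : ∀ v w, r v w → r (s i v) (s i w)) (v : V) :
    sq r s i (Quotient.mk r v) = Quotient.mk r (s i v) := by
  unfold sq
  rw [dif_pos h]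
  rfl

theorem sq_not (r : Setoid V) {i : ℕ} (h : ¬ ∀ v w, r v w → r (s i v) (s i w)) (x : Quotient r) :
    sq r s i x = x := by
  unfold sq
  rw [dif_neg h]
  rfl

theorem act_sq (h : Act s) (r : Setoid V) : Act (sq r s) := by
  constructor
  · intro i x
    by_cases hi : ∀ v w, r v w → r (s i v) (s i w)
    · induction x using Quotient.inductionOn with
      | h v => rw [sq_of r hi, sq_of r hi, h.inv]
    · rw [sq_not r hi, sq_not r hi]
  · intro i j hij x
    by_cases hi : ∀ v w, r v w → r (s i v) (s i w)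
    · by_cases hj : ∀ v w, r v w → r (s j v) (s j w)
      · induction x using Quotient.inductionOn with
        | h v => rw [sq_of r hi, sq_of r hj, sq_of r hj, sq_of r hi, h.comm i j hij]
      · rw [sq_not r hj, sq_not r hj]
    · rw [sq_not r hi, sq_not r hi]

theorem sq_cp (h : Act s) {i : ℕ} (hi : ∀ j ∈ J, i + 2 ≤ j ∨ j + 2 ≤ i) (v : V) :
    sq (cp s h J) s i (Quotient.mk (cp s h J) v) = Quotient.mk (cp s h J) (s i v) :=
  sq_of (cp s h J) (fun _ _ h1 => re_comm h hi h1) v

theorem cp_iff (h : Act s) (v w : V) :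
    Quotient.mk (cp s h J) v = Quotient.mk (cp s h J) w ↔ Re s J v w := by
  rw [Quotient.eq]
  exact Iff.rfl

/-- the permutation `s i` -/
def pm (s : ℕ → V → V) (h : Act s) (i : ℕ) : Equiv.Perm V := ⟨s i, s i, h.inv i, h.inv i⟩

theorem pm_apply (h : Act s) (i : ℕ) (v : V) : pm s h i v = s i v := rfl

/-- every transitive set contains a minimal one -/
theorem exists_mi {J : Finset ℕ} (hJ : Tr s J) : ∃ J' ⊆ J, Mi s J' := by
  classical
  induction J using Finset.strongInduction with
  | H J ih =>
    by_cases h : ∃ j ∈ J, Tr s (J.erase j)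
    · obtain ⟨j, hj, h1⟩ := h
      obtain ⟨J', h2, h3⟩ := ih (J.erase j) (Finset.erase_ssubset hj) h1
      exact ⟨J', h2.trans (Finset.erase_subset _ _), h3⟩
    · push Not at h
      exact ⟨J, Finset.Subset.refl _, hJ, h⟩

/-- paths in a quotient by components lift -/
theorem re_lift (h : Act s) {K : Finset ℕ} (hfar : ∀ i ∈ J, ∀ j ∈ K, i + 2 ≤ j ∨ j + 2 ≤ i) {x y : Quotient (cp s h K)}
    (hxy : Re (sq (cp s h K) s) J x y) (v : V) (hv : Quotient.mk (cp s h K) v = x) :
    ∃ w, Re s J v w ∧ Quotient.mk (cp s h K) w = y := by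
  induction hxy with
  | refl => exact ⟨v, Re.refl _, hv⟩
  | tail _ h2 ih =>
    obtain ⟨i, hi, rfl⟩ := h2
    obtain ⟨w, h3, rfl⟩ := ih
    refine ⟨s i w, h3.trans (Re.step hi _), ?_⟩
    rw [sq_cp h (hfar i hi)]

/-- paths descend to the quotient by components -/
theorem re_desc (h : Act s) {K : Finset ℕ} (hfar : ∀ i ∈ J, ∀ j ∈ K, i + 2 ≤ j ∨ j + 2 ≤ i) {v w : V}
    (hvw : Re s (J ∪ K) v w) : Re (sq (cp s h K) s) J (Quotient.mk (cp s h K) v) (Quotient.mk (cp s h K) w) := by
  induction hvw with
  | refl => exact Re.refl _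
  | tail _ h2 ih =>
    obtain ⟨i, hi, rfl⟩ := h2
    rcases Finset.mem_union.1 hi with hi | hi
    · refine ih.trans ?_
      rw [← sq_cp h (hfar i hi)]
      exact Re.step hi _
    · have h3 := (cp_iff (J := K) h _ _).2 (Re.step (s := s) hi ‹V›)
      rw [← h3]
      exact ih

end Pool.Agent.H11.KS
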