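import Pool.Agent.H11.KS.Base

/-!
# KS.Gap : the gap lemma and the free window (paper 1.4, 1.5)
-/

set_option autoImplicit false

namespace Pool.Agent.H11.KS

/-- the maximal run of `J` that starts at `a ∈ J` -/
private theorem exists_run (J : Finset ℕ) {a : ℕ} (ha : a ∈ J) :
    ∃ c, a < c ∧ (∀ i, a ≤ i → i < c → i ∈ J) ∧ c ∉ J := by
  classical
  have hex : ∃ c, a < c ∧ c ∉ J := by
    refine ⟨J.sup id + 1, ?_, ?_⟩
    · have : a ≤ J.sup id := Finset.le_sup (f := id) ha
      omega
    · intro h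
      have : J.sup id + 1 ≤ J.sup id := Finset.le_sup (f := id) h
      omega
  refine ⟨Nat.find hex, (Nat.find_spec hex).1, ?_, (Nat.find_spec hex).2⟩
  intro i h1 h2
  by_contra hi
  rcases Nat.lt_or_ge a i with h3 | h3
  · exact Nat.find_min hex h2 ⟨h3, hi⟩
  · have : i = a := by omega
    exact hi (this ▸ ha)

theorem gap_ind (e n : ℕ) : ∀ (V : Type) [Finite V] [Nonempty V] (s : ℕ → V → V) (_ : Act s) (J : Finset ℕ) (lo hi : ℕ),
    J.card ≤ n → lo ≤ hi → (∀ j ∈ J, 1 ≤ j ∧ lo ≤ j ∧ j < hi) → Mi s J →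
    (∀ A, lo ≤ A → A + e + 1 ≤ hi → ∃ j ∈ J, A ≤ j ∧ j ≤ A + e) →
    ∃ r ≤ J.card, hi ≤ lo + J.card + e * (r + 1) ∧ J.card + 2 ^ r ≤ Nat.card V + r := by
  classical
  induction n with
  | zero =>
    intro V _ _ s h J lo hi hn hlo hJ hmin hw
    have hJ0 : J = ∅ := Finset.card_eq_zero.1 (by omega)
    have hV : 0 < Nat.card V := Nat.card_pos
    refine ⟨0, by omega, ?_, ?_⟩
    · by_contra hcon
      rw [Nat.zero_add, Nat.mul_one] at hcon
      obtain ⟨j, hj, -⟩ := hw lo le_rfl (by omega)
      rw [hJ0] at hj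
      simp at hj
    · rw [hJ0, Finset.card_empty]
      omega
  | succ n ih =>
    intro V _ _ s h J lo hi hn hlo hJ hmin hw
    have hV : 0 < Nat.card V := Nat.card_pos
    rcases Finset.eq_empty_or_nonempty J with hJ0 | hne
    · refine ⟨0, by omega, ?_, ?_⟩
      · by_contra hcon
        rw [Nat.zero_add, Nat.mul_one] at hcon
        obtain ⟨j, hj, -⟩ := hw lo le_rfl (by omega)
        rw [hJ0] at hj
        simp at hj
      · rw [hJ0, Finset.card_empty]
        omega
    · set a := J.min' hne with ha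
      have haJ : a ∈ J := J.min'_mem hne
      have hmina : ∀ j ∈ J, a ≤ j := fun j hj => J.min'_le j hj
      have hloa : lo ≤ a := (hJ a haJ).2.1
      have ha1 : a ≤ lo + e := by
        by_contra hcon
        have h1 := (hJ a haJ)
        obtain ⟨j, hj, -, h3⟩ := hw lo le_rfl (by omega)
        have := hmina j hj
        omega
      obtain ⟨c, hac, hrun, hc⟩ := exists_run J haJ
      set J1 := Finset.Ico a c with hJ1
      set J2 := J \ J1 with hJ2
      have hsub : J1 ⊆ J := by
        intro i hi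
        rw [hJ1, Finset.mem_Ico] at hi
        exact hrun i hi.1 hi.2
      have hun : J1 ∪ J2 = J := by rw [hJ2]; exact Finset.union_sdiff_of_subset hsub
      have hdis : Disjoint J1 J2 := by rw [hJ2]; exact Finset.disjoint_sdiff
      have hcardJ1 : J1.card = c - a := Nat.card_Ico a c
      have hcards : J1.card + J2.card = J.card := by
        rw [← hun, Finset.card_union_of_disjoint hdis]
      have hJ2c : ∀ j ∈ J2, c + 1 ≤ j := by
        intro j hj
        rw [hJ2, Finset.mem_sdiff, hJ1, Finset.mem_Ico] at hj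
        have h1 := hmina j hj.1
        have h2 : j ≠ c := fun e => hc (e ▸ hj.1)
        omega
      have hfar : ∀ i ∈ J1, ∀ j ∈ J2, i + 2 ≤ j ∨ j + 2 ≤ i := by
        intro i hi j hj
        rw [hJ1, Finset.mem_Ico] at hi
        have := hJ2c j hj
        left
        omega
      have hchi : c ≤ hi := by
        have h1 : c - 1 ∈ J := hrun (c - 1) (by omega) (by omega)
        have := (hJ _ h1).2.2
        omega
      have hmin' : Mi s (J1 ∪ J2) := by rw [hun]; exact hmin
      have hM2 := mi_quot h hfar hdis hmin'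
      have hM1 := mi_quot h (J1 := J2) (J2 := J1) (fun i hi j hj => (hfar j hj i hi).symm) hdis.symm
        (by rw [Finset.union_comm]; exact hmin')
      have hne1 : Nonempty (Quotient (cp s h J1)) := ⟨Quotient.mk _ (Classical.arbitrary V)⟩
      have hne2 : Nonempty (Quotient (cp s h J2)) := ⟨Quotient.mk _ (Classical.arbitrary V)⟩
      obtain ⟨r, hr1, hr2, hr3⟩ := ih (Quotient (cp s h J1)) (sq (cp s h J1) s) (act_sq h _) J2 c hi (by omega) hchi
        (by
          intro j hj
          have h1 := hJ2c j hj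
          have h2 := hJ j (by rw [← hun]; exact Finset.mem_union_right _ hj)
          omega)
        hM2
        (by
          intro A hA1 hA2
          obtain ⟨j, hj, h1, h2⟩ := hw A (by omega) hA2
          refine ⟨j, ?_, h1, h2⟩
          rw [← hun, Finset.mem_union] at hj
          rcases hj with hj | hj
          · rw [hJ1, Finset.mem_Ico] at hj
            omega
          · exact hj)
      have hb := mi_card (act_sq h _) hM1 (fun j hj => (hJ j (hsub hj)).1)
      have hp := card_prod h hfar hmin'.tr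
      have hmul : e * (r + 1 + 1) = e * (r + 1) + e := by ring
      refine ⟨r + 1, by omega, by omega, ?_⟩
      have hpow : 1 ≤ 2 ^ r := Nat.one_le_two_pow
      have hrl : r < 2 ^ r := Nat.lt_two_pow_self
      -- `|V| ≥ |V2| (m + 1)`
      have h1 : Nat.card (Quotient (cp s h J1)) * (J1.card + 1) ≤ Nat.card V :=
        (Nat.mul_le_mul_left _ hb).trans hp
      have h2 : 2 ^ r ≤ Nat.card (Quotient (cp s h J1)) := by omega
      have h3 : 1 ≤ J1.card := by omega
      rw [pow_succ]
      obtain ⟨m, hm⟩ := Nat.exists_eq_add_of_le h3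
      obtain ⟨f, hf⟩ := Nat.exists_eq_add_of_le h2
      rw [hm] at h1 hcards
      rw [hf] at h1 hr3
      have h4 : (2 ^ r + f) * (1 + m + 1) = 2 * (2 ^ r) + 2 * f + (2 ^ r) * m + f * m := by ring
      have h5 : m ≤ 2 ^ r * m := Nat.le_mul_of_pos_left m (by omega)
      omega

/-- 1.5 -/
theorem window {V : Type} [Finite V] [Nonempty V] {s : ℕ → V → V} (h : Act s) {J : Finset ℕ} {d : ℕ}
    (hJ : ∀ j ∈ J, 1 ≤ j ∧ j ≤ d) (hmin : Mi s J) (hd : Nat.card V + 29 ≤ d) :
    ∃ A, 1 ≤ A ∧ A + 8 ≤ d ∧ ∀ j ∈ J, ¬ (A ≤ j ∧ j ≤ A + 8) := by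
  by_contra hcon
  push Not at hcon
  obtain ⟨r, -, h1, h2⟩ := gap_ind 8 J.card V s h J 1 (d + 1) le_rfl (by omega)
    (fun j hj => by have := hJ j hj; omega) hmin (by
      intro A hA1 hA
      obtain ⟨j, hj, h1, h2⟩ := hcon A hA1 (by omega)
      exact ⟨j, hj, h1, h2⟩)
  have h3 : 9 * r ≤ 2 ^ r + 20 := by
    rcases Nat.lt_or_ge r 6 with h4 | h4
    · interval_cases r <;> norm_num
    · clear h1 h2
      induction r, h4 using Nat.le_induction with
      | base => norm_num
      | succ r hr ih =>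
        rw [pow_succ]
        have : 2 ^ 6 ≤ 2 ^ r := Nat.pow_le_pow_right (by norm_num) hr
        omega
  omega

end Pool.Agent.H11.KS
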