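import Pool.Agent.H11.KS.Base

/-!
# KS.Semi : the group generated by far colours acts freely (paper 3.3), bound for `|J|`
-/

set_option autoImplicit false

namespace Pool.Agent.H11.KS

variable {V : Type} {s : ℕ → V → V}

/-- 3.3 -/
theorem semi [Finite V] (h : Act s) {J K : Finset ℕ} (hfar : ∀ i ∈ J, ∀ j ∈ K, i + 2 ≤ j ∨ j + 2 ≤ i)
    (ht : Tr s J) :
    Nat.card (Quotient (cp s h K)) * Nat.card (Subgroup.closure (pm s h '' (K : Set ℕ))) ≤ Nat.card V := by
  classical
  -- elements of the group commute with the colours of `J`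
  have hcomm : ∀ g ∈ Subgroup.closure (pm s h '' (K : Set ℕ)), ∀ i ∈ J, ∀ v, g (s i v) = s i (g v) := by
    intro g hg
    induction hg using Subgroup.closure_induction with
    | mem x hx =>
      obtain ⟨j, hj, rfl⟩ := hx
      intro i hi v
      rw [pm_apply, pm_apply]
      exact (h.comm' (hfar i hi j hj) v).symm
    | one => intro i _ v; rfl
    | mul x y _ _ hx hy =>
      intro i hi v
      rw [Equiv.Perm.mul_apply, Equiv.Perm.mul_apply, hy i hi, hx i hi]
    | inv x _ hx =>
      intro i hi v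
      apply x.injective
      rw [← Equiv.Perm.mul_apply, mul_inv_cancel, Equiv.Perm.one_apply, hx i hi, ← Equiv.Perm.mul_apply,
        mul_inv_cancel, Equiv.Perm.one_apply]
  -- they act freely
  have hfree : ∀ g ∈ Subgroup.closure (pm s h '' (K : Set ℕ)), ∀ v, g v = v → g = 1 := by
    intro g hg v hv
    ext w
    rw [Equiv.Perm.one_apply]
    have h1 := ht v w
    induction h1 with
    | refl => exact hv
    | tail _ h2 ih =>
      obtain ⟨i, hi, rfl⟩ := h2
      rw [hcomm g hg i hi, ih]
  -- the orbits are the components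
  have hre : ∀ g ∈ Subgroup.closure (pm s h '' (K : Set ℕ)), ∀ v, Re s K v (g v) := by
    intro g hg
    induction hg using Subgroup.closure_induction with
    | mem x hx =>
      obtain ⟨j, hj, rfl⟩ := hx
      intro v
      exact Re.step hj v
    | one => intro v; exact Re.refl v
    | mul x y _ _ hx hy =>
      intro v
      rw [Equiv.Perm.mul_apply]
      exact (hy v).trans (hx _)
    | inv x _ hx =>
      intro v
      have h1 := hx (x⁻¹ v)
      rw [← Equiv.Perm.mul_apply, mul_inv_cancel, Equiv.Perm.one_apply] at h1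
      exact h1.symm h
  rw [← Nat.card_prod]
  refine Nat.card_le_card_of_injective
    (fun x : Quotient (cp s h K) × Subgroup.closure (pm s h '' (K : Set ℕ)) => x.2.1 x.1.out) ?_
  rintro ⟨x, g⟩ ⟨y, g'⟩ hxy
  have h0 : g.1 x.out = g'.1 y.out := hxy
  have h1 : Re s K x.out y.out := (hre g.1 g.2 x.out).trans ((h0 ▸ (hre g'.1 g'.2 y.out).symm h))
  have h2 : x = y := by
    rw [← Quotient.out_eq x, ← Quotient.out_eq y]
    exact (cp_iff h _ _).2 h1
  subst h2
  have h3 : (g'.1⁻¹ * g.1) x.out = x.out := by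
    rw [Equiv.Perm.mul_apply, h0, ← Equiv.Perm.mul_apply, inv_mul_cancel, Equiv.Perm.one_apply]
  have h4 := hfree _ (Subgroup.mul_mem _ (Subgroup.inv_mem _ g'.2) g.2) _ h3
  have h5 : g'.1 = g.1 := inv_mul_eq_one.1 h4
  exact Prod.ext rfl (Subtype.ext h5.symm)

/-- a transitive set of smallest cardinality has few colours -/
theorem jbound [Finite V] [Nonempty V] (h : Act s) {J K : Finset ℕ} {d : ℕ} (hJ : J ⊆ Finset.Icc 1 d) (hK : K ⊆ Finset.Icc 1 d)
    (hfar : ∀ i ∈ J, ∀ j ∈ K, i + 2 ≤ j ∨ j + 2 ≤ i) (ht : Tr s J)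
    (hmin : ∀ J' ⊆ Finset.Icc 1 d, Tr s J' → J.card ≤ J'.card) :
    J.card + 1 ≤ Nat.card (Quotient (cp s h K)) + K.card := by
  classical
  have hne : Nonempty (Quotient (cp s h K)) := ⟨Quotient.mk _ (Classical.arbitrary V)⟩
  have hT : Tr (sq (cp s h K) s) J := by
    intro x y
    induction x using Quotient.inductionOn with
    | h v =>
    induction y using Quotient.inductionOn with
    | h w =>
    exact re_desc h hfar ((ht v w).mono Finset.subset_union_left)
  obtain ⟨J', hJ', hM⟩ := exists_mi hT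
  have h1 := mi_card (act_sq h _) hM (fun j hj => (Finset.mem_Icc.1 (hJ (hJ' hj))).1)
  have h2 : Tr s (J' ∪ K) := by
    intro v w
    obtain ⟨u, hu1, hu2⟩ := re_lift h (fun i hi => hfar i (hJ' hi)) (hM.tr (Quotient.mk _ v) (Quotient.mk _ w)) v rfl
    exact (hu1.mono Finset.subset_union_left).trans (((cp_iff h _ _).1 hu2).mono Finset.subset_union_right)
  have h3 := hmin (J' ∪ K) (Finset.union_subset (hJ'.trans hJ) hK) h2
  have h4 := Finset.card_union_le J' K
  omega

end Pool.Agent.H11.KS
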