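import Pool.Agent.H63.KO.Block
import Pool.Agent.H11.KS.Semi
import Pool.Agent.H11.KS.Gap
import Pool.Agent.H11.KS.Chain

/-!
# KS.Win : windows (paper 2.1, 2.2)
-/

set_option autoImplicit false

namespace Pool.Agent.H11.KS

open H63.KO

variable {X : Type} [Finite X] {S : FSys X} {V : Type}

theorem act_quo (q : S.Quo V) : Act q.s := ⟨q.s_inv, fun _ _ h v => q.s_comm (Or.inl h) v⟩

/-- a free window -/
structure Wn (q : S.Quo V) (J : Finset ℕ) (A : ℕ) : Prop where
  tr : Tr q.s J
  pos : 1 ≤ A
  le : A + 8 ≤ S.d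
  free : ∀ j ∈ J, ¬ (A ≤ j ∧ j ≤ A + 8)

/-- the periods are constant in the middle -/
theorem win_const (q : S.Quo V) {J : Finset ℕ} {A : ℕ} (hW : Wn q J A) :
    ∀ i, A + 1 ≤ i → i ≤ A + 6 → ∀ x y, S.per i x = S.per i y := by
  intro i h1 h2 x y
  rw [← q.per_π i x, ← q.per_π i y]
  have hgen : ∀ v w, Re q.s J v w → q.per i w = q.per i v := by
    intro v w hr
    unfold Re at hr
    induction hr with
    | refl => rfl
    | @tail b c _ h3 ih =>
      obtain ⟨j, hj, rfl⟩ := h3
      rw [← ih]
      obtain ⟨z, rfl⟩ := q.surj b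
      rw [← q.hs, q.per_π, q.per_π]
      have h := hW.free j hj
      exact S.per_far (by omega) z
  exact hgen _ _ (hW.tr (q.π y) (q.π x))

/-- 2.1 -/
theorem win_three (q : S.Quo V) [Nonempty V] {J : Finset ℕ} {A : ℕ} (hW : Wn q J A) :
    ∀ i, A + 2 ≤ i → i ≤ A + 5 → ∀ x, S.per i x = 3 := by
  have hx0 : Nonempty X := by
    obtain ⟨v⟩ := (inferInstance : Nonempty V)
    obtain ⟨x, -⟩ := q.surj v
    exact ⟨x⟩
  obtain ⟨x0⟩ := hx0
  have hle := hW.le
  have hconst := win_const q hW
  intro i h1 h2 x
  by_cases h3 : i ≤ A + 4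
  · have h := S.string (a := i - 1) (by omega) (by omega) Set.univ ⟨x0, trivial⟩
      (fun _ _ _ _ _ => trivial) (fun j => S.per (i - 1 + j) x)
      (fun j y _ => hconst _ (by omega) (by have := j.2; omega) y x)
    have h4 := h.1
    have e : i - 1 + ((1 : Fin 4) : ℕ) = i := by
      have : ((1 : Fin 4) : ℕ) = 1 := rfl
      omega
    simp only [e] at h4
    exact h4
  · have h := S.string (a := i - 2) (by omega) (by omega) Set.univ ⟨x0, trivial⟩
      (fun _ _ _ _ _ => trivial) (fun j => S.per (i - 2 + j) x)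
      (fun j y _ => hconst _ (by omega) (by have := j.2; omega) y x)
    have h4 := h.2.1
    have e : i - 2 + ((2 : Fin 4) : ℕ) = i := by
      have : ((2 : Fin 4) : ℕ) = 2 := rfl
      omega
    simp only [e] at h4
    exact h4

/-- if two neighbours commute in the middle then all maps in the middle are equal -/
theorem win_eq (q : S.Quo V) [Nonempty V] {J : Finset ℕ} {A : ℕ} (hW : Wn q J A) {i : ℕ} (hi1 : A + 2 ≤ i)
    (hi2 : i ≤ A + 5) (hc : ∀ w, q.s i (q.s (i + 1) w) = q.s (i + 1) (q.s i w)) :
    ∀ t, A + 2 ≤ t → t ≤ A + 5 → ∀ v, q.s t v = q.s (t + 1) v := by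
  have h3 := win_three q hW
  have hper3 : ∀ i, A + 2 ≤ i → i ≤ A + 5 → ∀ v, q.per i v = 3 := by
    intro i h1 h2 v
    obtain ⟨x, rfl⟩ := q.surj v
    rw [q.per_π]; exact h3 i h1 h2 x
  have hE : ∀ v, q.s i v = q.s (i + 1) v := fun v => q.eq_of_three (hper3 i hi1 hi2 v) hc
  have hup : ∀ t, i ≤ t → t ≤ A + 5 → ∀ v, q.s t v = q.s (t + 1) v := by
    intro t ht
    induction t, ht using Nat.le_induction with
    | base => intro _; exact hE
    | succ t ht ih =>
      intro ht7 v
      refine q.eq_of_three (hper3 _ (by omega) ht7 v) ?_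
      intro w
      have e : ∀ u, q.s (t + 1) u = q.s t u := fun u => (ih (by omega) u).symm
      rw [e, e]
      exact q.s_comm (Or.inl (by omega)) w
  have hdown : ∀ e t, t + e = i → A + 2 ≤ t → ∀ v, q.s t v = q.s (t + 1) v := by
    intro e
    induction e with
    | zero => intro t ht _; rw [Nat.add_zero] at ht; rw [ht]; exact hE
    | succ e ih =>
      intro t ht hA2 v
      refine q.eq_of_three (hper3 _ hA2 (by omega) v) ?_
      intro w
      have e1 : ∀ u, q.s (t + 1) u = q.s (t + 1 + 1) u := ih (t + 1) (by omega) (by omega)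
      rw [e1, e1]
      exact q.s_comm (Or.inl (by omega)) w
  intro t h1 h2
  by_cases h4 : i ≤ t
  · exact hup t h4 h2
  · exact hdown (i - t) t (by omega) h1

/-- 2.2 -/
theorem win_block (q : S.Quo V) [Nonempty V] {J : Finset ℕ} {A : ℕ} (hW : Wn q J A) {i : ℕ} (hi1 : A + 2 ≤ i)
    (hi2 : i ≤ A + 5) (hc : ∀ w, q.s i (q.s (i + 1) w) = q.s (i + 1) (q.s i w)) : IsBlock q (A + 1) (A + 7) := by
  have hx0 : Nonempty X := by
    obtain ⟨v⟩ := (inferInstance : Nonempty V)
    obtain ⟨x, -⟩ := q.surj v
    exact ⟨x⟩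
  have hle := hW.le
  have hpos := hW.pos
  have hconst := win_const q hW
  have h3 := win_three q hW
  have hE := win_eq q hW hi1 hi2 hc
  have e23 := hE (A + 2) (by omega) (by omega)
  have e34 := hE (A + 3) (by omega) (by omega)
  have e45 := hE (A + 4) (by omega) (by omega)
  have e56 := hE (A + 5) (by omega) (by omega)
  -- `per A` does not change under `A + 2`, `per (A + 7)` does not change under `A + 6`
  have hA2 : ∀ x, S.per A (S.ρ (A + 2) x) = S.per A x := by
    intro x
    have h1 : q.π (S.ρ (A + 2) x) = q.π (S.ρ (A + 4) x) := by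
      rw [q.hs, q.hs, e23, e34]
    rw [q.hper A _ _ h1]
    exact S.per_far (Or.inr (by omega)) x
  have hA7 : ∀ x, S.per (A + 7) (S.ρ (A + 6) x) = S.per (A + 7) x := by
    intro x
    have h1 : q.π (S.ρ (A + 6) x) = q.π (S.ρ (A + 4) x) := by
      rw [q.hs, q.hs, ← e56, ← e45]
    rw [q.hper (A + 7) _ _ h1]
    exact S.per_far (Or.inl (by omega)) x
  -- `per (A + 1) = 3`
  have hleft : ∀ x, S.per (A + 1) x = 3 := by
    intro x
    obtain ⟨R, hR⟩ : ∃ R : Set X, R = {y | Relation.ReflTransGen (fun p r => ∃ i, A ≤ i ∧ i ≤ A + 4 ∧ r = S.ρ i p) x y} :=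
      ⟨_, rfl⟩
    have hxR : x ∈ R := by rw [hR]; exact Relation.ReflTransGen.refl
    have hRc : ∀ i, A ≤ i → i ≤ A + 4 → ∀ y ∈ R, S.ρ i y ∈ R := by
      intro i h1 h2 y hy
      rw [hR] at hy ⊢
      exact Relation.ReflTransGen.tail hy ⟨i, h1, h2, rfl⟩
    have hperA : ∀ y ∈ R, S.per A y = S.per A x := by
      intro y hy
      rw [hR] at hy
      have hy' : Relation.ReflTransGen (fun p r => ∃ i, A ≤ i ∧ i ≤ A + 4 ∧ r = S.ρ i p) x y := hy
      clear hy
      induction hy' with
      | refl => rfl
      | @tail b c _ h4 ih =>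
        obtain ⟨j, h5, h6, rfl⟩ := h4
        rw [← ih]
        rcases Nat.lt_or_ge j (A + 1) with h7 | h7
        · have : j = A := by omega
          subst this
          exact S.per_self _ b
        · rcases Nat.lt_or_ge j (A + 2) with h8 | h8
          · have : j = A + 1 := by omega
            subst this
            exact S.per_succ _ b
          · rcases Nat.lt_or_ge j (A + 3) with h9 | h9
            · have : j = A + 2 := by omega
              subst this
              exact hA2 b
            · exact S.per_far (Or.inr (by omega)) b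
    have h := S.string (a := A) hpos (by omega) R ⟨x, hxR⟩ hRc (fun j => S.per (A + j) x)
      (by
        intro j y hy
        by_cases hj : (j : ℕ) = 0
        · rw [hj, Nat.add_zero]
          exact hperA y hy
        · exact hconst _ (by omega) (by have := j.2; omega) y x)
    exact h.1
  have hright : ∀ x, S.per (A + 6) x = 3 := by
    intro x
    obtain ⟨R, hR⟩ : ∃ R : Set X, R = {y | Relation.ReflTransGen
      (fun p r => ∃ i, A + 4 ≤ i ∧ i ≤ A + 8 ∧ r = S.ρ i p) x y} := ⟨_, rfl⟩
    have hxR : x ∈ R := by rw [hR]; exact Relation.ReflTransGen.refl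
    have hRc : ∀ i, A + 4 ≤ i → i ≤ A + 4 + 4 → ∀ y ∈ R, S.ρ i y ∈ R := by
      intro i h1 h2 y hy
      rw [hR] at hy ⊢
      exact Relation.ReflTransGen.tail hy ⟨i, h1, by omega, rfl⟩
    have hperA : ∀ y ∈ R, S.per (A + 7) y = S.per (A + 7) x := by
      intro y hy
      rw [hR] at hy
      have hy' : Relation.ReflTransGen (fun p r => ∃ i, A + 4 ≤ i ∧ i ≤ A + 8 ∧ r = S.ρ i p) x y := hy
      clear hy
      induction hy' with
      | refl => rfl
      | @tail b c _ h4 ih =>
        obtain ⟨j, h5, h6, rfl⟩ := h4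
        rw [← ih]
        rcases Nat.lt_or_ge j (A + 6) with h7 | h7
        · exact S.per_far (Or.inl (by omega)) b
        · rcases Nat.lt_or_ge j (A + 7) with h8 | h8
          · have : j = A + 6 := by omega
            subst this
            exact hA7 b
          · rcases Nat.lt_or_ge j (A + 8) with h9 | h9
            · have : j = A + 7 := by omega
              subst this
              exact S.per_self _ b
            · have : j = A + 8 := by omega
              subst this
              exact S.per_succ _ b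
    have h := S.string (a := A + 4) (by omega) (by omega) R ⟨x, hxR⟩ hRc (fun j => S.per (A + 4 + j) x)
      (by
        intro j y hy
        by_cases hj : (j : ℕ) = 3
        · rw [hj]
          exact hperA y hy
        · exact hconst _ (by omega) (by have := j.2; omega) y x)
    exact h.2.1
  have e12 : ∀ v, q.s (A + 1) v = q.s (A + 2) v := by
    intro v
    obtain ⟨x, hx⟩ := q.surj v
    refine q.eq_of_three (by rw [← hx, q.per_π]; exact hleft x) ?_
    intro w
    rw [e23, e23]
    exact q.s_comm (Or.inl (by omega)) w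
  have e67 : ∀ v, q.s (A + 6) v = q.s (A + 7) v := by
    intro v
    obtain ⟨x, hx⟩ := q.surj v
    refine q.eq_of_three (by rw [← hx, q.per_π]; exact hright x) ?_
    intro w
    rw [← e56, ← e56]
    exact q.s_comm (Or.inl (by omega)) w
  have hall : ∀ t, A + 1 ≤ t → t ≤ A + 6 → ∀ v, q.s t v = q.s (t + 1) v := by
    intro t h1 h2
    rcases Nat.lt_or_ge t (A + 2) with h4 | h4
    · have : t = A + 1 := by omega
      subst this
      exact e12
    · rcases Nat.lt_or_ge t (A + 6) with h5 | h5
      · exact hE t h4 (by omega)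
      · have : t = A + 6 := by omega
        subst this
        exact e67
  refine ⟨by omega, by omega, by omega, ?_, ?_⟩
  · intro t h1 h2
    induction t, h1 using Nat.le_induction with
    | base => intro v; rfl
    | succ t ht ih =>
      intro v
      rw [← ih (by omega) v]
      exact (hall t ht (by omega) v).symm
  · intro t h1 h2 x
    rcases Nat.lt_or_ge t (A + 2) with h4 | h4
    · have : t = A + 1 := by omega
      subst this
      exact hleft x
    · rcases Nat.lt_or_ge t (A + 6) with h5 | h5
      · exact h3 t h4 (by omega) x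
      · have : t = A + 6 := by omega
        subst this
        exact hright x

end Pool.Agent.H11.KS
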